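import Pool.Agent.H409_MG.Force
import Pool.Agent.H409_MG.ZF

/-!
# Strongly proper forcing need not preserve winning strategies in the Menger game

There are a forcing notion which is strongly proper for stationarily many models (a preorder of
the natural numbers isomorphic, after identifying equivalent conditions, to Cohen forcing) and a
space (the Cantor space) on which player II has a winning strategy in the Menger game, such that
every condition forces that in the extension player II has no winning strategy in the Menger game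
on the ground model points with the topology generated by the ground model topology.
-/

namespace Pool.Agent.Results.MP_18f314_lc.MengerStrategyNotPreserved

open Pool.Agent.H409_MG Pool.Agent.Helper669.Forcing

/-- player II wins on a compact space -/
theorem iiWins_compact (X : Type) [TopologicalSpace X] [CompactSpace X] : IIWinsMenger X := by
  classical
  have key : ∀ U : Cover X, ∃ F : Set (Set X), F.Finite ∧ F ⊆ U.1 ∧ ⋃₀ F = Set.univ := by
    intro U
    obtain ⟨t, ht⟩ := isCompact_univ.elim_finite_subcover (fun A : U.1 => A.1)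
      (fun A => U.2.1 A.1 A.2) (by
        have h := U.2.2
        rw [Set.sUnion_eq_iUnion] at h
        rw [h])
    refine ⟨(fun A : U.1 => A.1) '' (t : Set U.1), t.finite_toSet.image _, ?_, ?_⟩
    · rintro _ ⟨A, _, rfl⟩
      exact A.2
    · rw [Set.eq_univ_iff_forall]
      intro x
      obtain ⟨A, hA, hx⟩ := Set.mem_iUnion₂.1 (ht (Set.mem_univ x))
      exact ⟨A.1, ⟨A, hA, rfl⟩, hx⟩
  choose F hF1 hF2 hF3 using key
  refine ⟨fun n u => F (u (Fin.last n)), fun n u => ⟨hF1 _, hF2 _⟩, fun u => ?_⟩
  rw [Set.eq_univ_iff_forall]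
  intro x
  refine Set.mem_iUnion.2 ⟨0, ?_⟩
  rw [hF3]
  trivial

/-- the code of a condition -/
noncomputable def idx (p : Cond PC RC preorder_RC) : ℕ := (mem_PC.1 p.2).choose

theorem idx_spec (p : Cond PC RC preorder_RC) : nat (idx p) = p.1 := (mem_PC.1 p.2).choose_spec

/-- the string of a condition -/
noncomputable def e (p : Cond PC RC preorder_RC) : List Bool := str (idx p)

theorem e_le (p q : Cond PC RC preorder_RC) : p ≤ q ↔ e q <+: e p := by
  show Le RC p.1 q.1 ↔ _
  rw [← idx_spec p, ← idx_spec q]
  exact le_RC

theorem e_surj : Function.Surjective e := by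
  intro l
  refine ⟨⟨nat (Encodable.encode l), mem_PC.2 ⟨_, rfl⟩⟩, ?_⟩
  have h := idx_spec ⟨nat (Encodable.encode l), mem_PC.2 ⟨_, rfl⟩⟩
  have h1 := nat_injective h
  show str (idx _) = l
  rw [h1, str_surj]

/-- **The answer to Q1 is no.** -/
theorem result : ∃ (P R : ZFSet.{0}) (h : IsPreorderZ P R), StronglyProperStat P R ∧
    Nonempty (Cond P R h) ∧ ∃ (X : Type) (_ : TopologicalSpace X), IIWinsMenger X ∧
      ∀ p : Cond P R h, p ∈ fnot (IIWinsExt (Cond P R h) X) :=
  ⟨PC, RC, preorder_RC, stronglyProper_PC, ⟨⟨nat 0, mem_PC.2 ⟨0, rfl⟩⟩⟩, ℕ → Bool, inferInstance,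
    iiWins_compact _, no_strategy e_le e_surj⟩

end Pool.Agent.Results.MP_18f314_lc.MengerStrategyNotPreserved
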